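import Pool.Agent.Helper95.Div.Cor
import Pool.Agent.Helper89.Lang.Roth

/-!
# Roth's theorem in the form used here
-/

set_option autoImplicit false

namespace Pool.Agent.Helper95.Div

/-- Roth's theorem: `|n ξ - k| ≥ c₀ n ^ (-(1 + δ))` -/
theorem roth_low {ξ δ : ℝ} (hξ : IsAlgebraic ℚ ξ) (hirr : Irrational ξ) (hδ : 0 < δ) :
    ∃ c₀ : ℝ, 0 < c₀ ∧ ∀ (n : ℕ) (k : ℤ), 1 ≤ n →
      c₀ / (n : ℝ) ^ (1 + δ) ≤ |(n : ℝ) * ξ - k| := by
  obtain ⟨c, hc, h⟩ := Helper89Roth.roth ξ hξ hirr δ hδ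
  refine ⟨c, hc, ?_⟩
  intro n k hn
  have h1 := h n hn
  have hnR : (0:ℝ) < n := by exact_mod_cast hn
  rw [Real.rpow_neg hnR.le, ← div_eq_mul_inv] at h1
  refine h1.trans ?_
  unfold Helper98.Lang.nd
  exact round_le _ _

end Pool.Agent.Helper95.Div
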