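import Mathlib

/-!
# Counting division points with a good rational approximation: basic lemmas
-/

set_option autoImplicit false

namespace Pool.Agent.Helper95.Div

open Finset

/-- reduced fractions with denominators `< D` in an interval of radius `r` -/
lemma farey_card (x r D : ℝ) (hr : 0 ≤ r) (hD : 0 < D) (T : Finset (ℤ × ℕ))
    (hT : ∀ t ∈ T, 1 ≤ t.2 ∧ (t.2 : ℝ) < D ∧ Int.gcd t.1 t.2 = 1 ∧
      |x - (t.1 : ℝ) / (t.2 : ℝ)| ≤ r) :
    (T.card : ℝ) ≤ 1 + 2 * r * D ^ 2 := by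
  classical
  set F : ℤ × ℕ → ℤ := fun t => ⌊((t.1 : ℝ) / (t.2 : ℝ) - (x - r)) * D ^ 2⌋ with hF
  have hD2 : 0 < D ^ 2 := by positivity
  have hinj : Set.InjOn F T := by
    intro s hs t ht hst
    have hs' := hT s hs
    have ht' := hT t ht
    by_contra hne
    have s2 : (0:ℝ) < s.2 := by
      have := hs'.1
      exact_mod_cast this
    have t2 : (0:ℝ) < t.2 := by
      have := ht'.1
      exact_mod_cast this
    have hval : s.1 * (t.2 : ℤ) - t.1 * (s.2 : ℤ) ≠ 0 := by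
      intro h0
      have h1 : s.1 * (t.2 : ℤ) = t.1 * (s.2 : ℤ) := by linarith
      -- reduced fractions are equal
      have c1 : IsCoprime s.1 (s.2 : ℤ) := Int.isCoprime_iff_gcd_eq_one.2 hs'.2.2.1
      have c2 : IsCoprime t.1 (t.2 : ℤ) := Int.isCoprime_iff_gcd_eq_one.2 ht'.2.2.1
      have d1 : (s.2 : ℤ) ∣ (t.2 : ℤ) := by
        have : (s.2 : ℤ) ∣ s.1 * (t.2 : ℤ) := by
          rw [h1]
          exact dvd_mul_left _ _
        exact c1.symm.dvd_of_dvd_mul_left this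
      have d2 : (t.2 : ℤ) ∣ (s.2 : ℤ) := by
        have : (t.2 : ℤ) ∣ t.1 * (s.2 : ℤ) := by
          rw [← h1]
          exact dvd_mul_left _ _
        exact c2.symm.dvd_of_dvd_mul_left this
      have e2 : s.2 = t.2 := Nat.dvd_antisymm (Int.natCast_dvd_natCast.1 d1)
        (Int.natCast_dvd_natCast.1 d2)
      have e1 : s.1 = t.1 := by
        rw [e2] at h1
        have h2 : ((t.2 : ℕ) : ℤ) ≠ 0 := by
          have := ht'.1
          exact_mod_cast (by omega : t.2 ≠ 0)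
        exact mul_right_cancel₀ h2 h1
      exact hne (Prod.ext e1 e2)
    have habs : (1:ℝ) ≤ |(s.1 : ℝ) * t.2 - t.1 * s.2| := by
      have h1 : (1:ℤ) ≤ |s.1 * (t.2 : ℤ) - t.1 * (s.2 : ℤ)| := Int.one_le_abs hval
      have h2 : ((1:ℤ):ℝ) ≤ ((|s.1 * (t.2 : ℤ) - t.1 * (s.2 : ℤ)| : ℤ) : ℝ) := by
        exact_mod_cast h1
      push_cast at h2
      exact h2
    have hdiff : 1 < |(s.1 : ℝ) / s.2 - (t.1 : ℝ) / t.2| * D ^ 2 := by
      have e : (s.1 : ℝ) / s.2 - (t.1 : ℝ) / t.2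
          = ((s.1 : ℝ) * t.2 - t.1 * s.2) / ((s.2 : ℝ) * t.2) := by
        field_simp
      rw [e, abs_div, abs_of_pos (mul_pos s2 t2), div_mul_eq_mul_div, lt_div_iff₀ (mul_pos s2 t2),
        one_mul]
      have : (s.2 : ℝ) * t.2 < D ^ 2 := by
        rw [sq]
        exact mul_lt_mul'' hs'.2.1 ht'.2.1 s2.le t2.le
      nlinarith
    have hfl := Int.abs_sub_lt_one_of_floor_eq_floor hst
    have e3 : ((s.1 : ℝ) / (s.2 : ℝ) - (x - r)) * D ^ 2 - ((t.1 : ℝ) / (t.2 : ℝ) - (x - r)) * D ^ 2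
        = ((s.1 : ℝ) / s.2 - (t.1 : ℝ) / t.2) * D ^ 2 := by ring
    rw [e3, abs_mul, abs_of_pos hD2] at hfl
    linarith
  have hmaps : ∀ t ∈ T, F t ∈ Finset.Icc (0:ℤ) ⌊2 * r * D ^ 2⌋ := by
    intro t ht
    have h := abs_le.1 (hT t ht).2.2.2
    rw [Finset.mem_Icc]
    refine ⟨Int.floor_nonneg.2 (mul_nonneg (by linarith) hD2.le), Int.floor_le_floor ?_⟩
    apply mul_le_mul_of_nonneg_right _ hD2.le
    linarith
  have hcard := Finset.card_le_card_of_injOn F hmaps hinj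
  rw [Int.card_Icc] at hcard
  have hnn : (0:ℤ) ≤ ⌊2 * r * D ^ 2⌋ := Int.floor_nonneg.2 (by positivity)
  have h3 : (T.card : ℤ) ≤ ⌊2 * r * D ^ 2⌋ + 1 := by
    have : (T.card : ℤ) ≤ ((⌊2 * r * D ^ 2⌋ + 1 - 0).toNat : ℤ) := by exact_mod_cast hcard
    rw [Int.toNat_of_nonneg (by linarith)] at this
    linarith
  have h4 : (T.card : ℝ) ≤ (⌊2 * r * D ^ 2⌋ : ℝ) + 1 := by exact_mod_cast h3
  have h5 := Int.floor_le (2 * r * D ^ 2)
  linarith

/-- residues `j < m` with `m' ∣ j n + k` where `m = g m'` and `n` is a unit mod `m'` -/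
lemma residue_card (m g m' n : ℕ) (k : ℤ) (hm : m = g * m') (hm0 : 0 < m)
    (hn : Nat.Coprime n m') (S : Finset ℕ)
    (hS : ∀ j ∈ S, j < m ∧ (m' : ℤ) ∣ (j : ℤ) * n + k) : S.card ≤ g := by
  classical
  have hm' : 0 < m' := by
    rcases Nat.eq_zero_or_pos m' with h | h
    · subst h
      simp at hm
      omega
    · exact h
  have hmaps : ∀ j ∈ S, j / m' ∈ Finset.range g := by
    intro j hj
    rw [Finset.mem_range, Nat.div_lt_iff_lt_mul hm']
    rw [← hm]
    exact (hS j hj).1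
  have hinj : Set.InjOn (fun j : ℕ => j / m') S := by
    intro i hi j hj hij
    simp only at hij
    have h1 := (hS i hi).2
    have h2 := (hS j hj).2
    have h3 : (m' : ℤ) ∣ ((i : ℤ) - j) * n := by
      have := dvd_sub h1 h2
      have e : ((i : ℤ) * n + k) - ((j : ℤ) * n + k) = ((i : ℤ) - j) * n := by ring
      rwa [e] at this
    have h4 : (m' : ℤ) ∣ ((i : ℤ) - j) := by
      have hc : IsCoprime (m' : ℤ) (n : ℤ) := (Nat.isCoprime_iff_coprime.2 hn).symm
      exact hc.dvd_of_dvd_mul_right h3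
    have h5 : i % m' = j % m' := by
      have : (i : ℤ) ≡ (j : ℤ) [ZMOD (m' : ℤ)] := (Int.modEq_iff_dvd.2 (by
        have := dvd_neg.2 h4
        have e : -((i : ℤ) - j) = (j : ℤ) - i := by ring
        rwa [e] at this))
      exact_mod_cast (Int.natCast_modEq_iff.1 this)
    calc i = m' * (i / m') + i % m' := (Nat.div_add_mod i m').symm
      _ = m' * (j / m') + j % m' := by rw [hij, h5]
      _ = j := Nat.div_add_mod j m'
  have := Finset.card_le_card_of_injOn (fun j : ℕ => j / m') hmaps hinj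
  rwa [Finset.card_range] at this

end Pool.Agent.Helper95.Div
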