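import Pool.Agent.Helper95.Div.Main

/-!
# Corollaries: numbers with a Diophantine exponent, algebraic numbers
-/

set_option autoImplicit false

namespace Pool.Agent.Helper95.Div

open Finset Filter Topology Polynomial

/-- numbers with `|n ξ - k| ≥ c₀ / n^τ` -/
theorem exponent_case {ε : ℝ} (hε : 0 < ε) {ξ τ c₀ A α c : ℝ} (hτ : 1 ≤ τ) (hc₀ : 0 < c₀)
    (hξ : ∀ (n : ℕ) (k : ℤ), 1 ≤ n → c₀ / (n : ℝ) ^ τ ≤ |(n : ℝ) * ξ - k|)
    (hc : 0 < c) (hA : A * (τ - 1) + α * τ < τ) :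
    ∀ᶠ m : ℕ in atTop, ∀ a : ℤ, 1 ≤ |a| → (|a| : ℝ) ≤ (m : ℝ) ^ α →
      ((Bad ε c ((m : ℝ) ^ A) (a * ξ) m).ncard : ℝ)
        ≤ (8 * W ε * Z ε + 1) * c * (ArithmeticFunction.sigma 1 m : ℕ) := by
  have hτ0 : 0 < τ := by linarith
  set e := (τ - (τ - 1) * A - α * τ) / 2 with he
  have he0 : 0 < e := by
    rw [he]
    nlinarith
  set κ := e / (4 * τ) with hκ
  have hκ0 : 0 < κ := by positivity
  have hlog : ∀ᶠ m : ℕ in atTop, A * Real.log m ≤ (m : ℝ) ^ κ := by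
    have h1 : Tendsto (fun x : ℝ => x ^ κ / Real.log x) atTop atTop := by
      have := (isLittleO_log_rpow_atTop hκ0)
      have h2 := this.tendsto_div_nhds_zero
      have h3 : Tendsto (fun x : ℝ => (Real.log x / x ^ κ)⁻¹) atTop atTop := by
        apply Tendsto.inv_tendsto_nhdsGT_zero
        rw [tendsto_nhdsWithin_iff]
        refine ⟨h2, ?_⟩
        filter_upwards [eventually_gt_atTop 1] with x hx
        have : 0 < Real.log x := Real.log_pos hx
        have : 0 < x := by linarith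
        simp only [Set.mem_Ioi]
        positivity
      refine h3.congr (fun x => ?_)
      rw [inv_div]
    have h4 := (h1.comp tendsto_natCast_atTop_atTop).eventually_ge_atTop A
    filter_upwards [h4, eventually_gt_atTop 1] with m h5 h6
    have h7 : 0 < Real.log m := Real.log_pos (by exact_mod_cast h6)
    simp only [Function.comp] at h5
    rw [le_div_iff₀ h7] at h5
    exact h5
  filter_upwards [general hε hc hκ0, hlog, eventually_rpow_ge he0 (1 / c₀),
    eventually_ge_atTop 1] with m hgen h1 h2 h3 a ha1 haα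
  have hmR : (0:ℝ) < m := by exact_mod_cast h3
  have hm1 : (1:ℝ) ≤ m := by exact_mod_cast h3
  refine hgen (a * ξ) ((m : ℝ) ^ A) ?_ ?_
  · rw [Real.log_rpow hmR]
    exact h1
  · intro n k hn hnX
    have hnR : (0:ℝ) < n := by exact_mod_cast hn
    -- the natural number `N = n |a|`
    have haR : (0:ℝ) < |(a:ℝ)| := by
      have : (1:ℝ) ≤ |(a:ℝ)| := by exact_mod_cast ha1
      linarith
    have hna : ((a.natAbs : ℕ) : ℝ) = |(a : ℝ)| := by
      rw [Nat.cast_natAbs, Int.cast_abs]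
    obtain ⟨k', hk'⟩ : ∃ k' : ℤ, |((n * a.natAbs : ℕ) : ℝ) * ξ - k'| = |(n : ℝ) * (a * ξ) - k| := by
      rcases le_total 0 (a : ℝ) with h | h
      · refine ⟨k, ?_⟩
        rw [Nat.cast_mul, hna, abs_of_nonneg h]
        congr 1
        ring
      · refine ⟨-k, ?_⟩
        rw [Nat.cast_mul, hna, abs_of_nonpos h, ← abs_neg]
        congr 1
        push_cast
        ring
    have hN1 : 1 ≤ n * a.natAbs := by
      have h0 : 1 ≤ a.natAbs := by
        have : (1:ℤ) ≤ (a.natAbs : ℤ) := by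
          rw [Int.natCast_natAbs]
          exact ha1
        exact_mod_cast this
      exact Nat.mul_pos hn h0
    have hlow := hξ (n * a.natAbs) k' hN1
    rw [hk'] at hlow
    have hNcast : ((n * a.natAbs : ℕ) : ℝ) = n * |(a:ℝ)| := by
      rw [Nat.cast_mul, hna]
    rw [hNcast, Real.mul_rpow hnR.le haR.le] at hlow
    -- lower bound of `n c₀ / (n|a|)^τ`
    have hexp : (m : ℝ) ^ (4 * κ - 1) ≤ n * (c₀ / ((n : ℝ) ^ τ * |(a:ℝ)| ^ τ)) := by
      have e1 : (n : ℝ) * (c₀ / ((n : ℝ) ^ τ * |(a:ℝ)| ^ τ))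
          = c₀ / ((n : ℝ) ^ (τ - 1) * |(a:ℝ)| ^ τ) := by
        rw [Real.rpow_sub_one hnR.ne']
        field_simp
      rw [e1, le_div_iff₀ (by positivity)]
      have b1 : (n : ℝ) ^ (τ - 1) ≤ (m : ℝ) ^ ((A + (4 * κ - 1)) * (τ - 1)) := by
        rw [Real.rpow_mul hmR.le]
        apply Real.rpow_le_rpow hnR.le _ (by linarith)
        rw [add_comm, Real.rpow_add hmR]
        exact hnX
      have b2 : |(a:ℝ)| ^ τ ≤ (m : ℝ) ^ (α * τ) := by
        rw [Real.rpow_mul hmR.le]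
        exact Real.rpow_le_rpow haR.le haα hτ0.le
      have b3 : (m : ℝ) ^ (4 * κ - 1) * ((n : ℝ) ^ (τ - 1) * |(a:ℝ)| ^ τ)
          ≤ (m : ℝ) ^ (4 * κ - 1) * ((m : ℝ) ^ ((A + (4 * κ - 1)) * (τ - 1)) * (m : ℝ) ^ (α * τ)) := by
        gcongr
      refine b3.trans ?_
      rw [← Real.rpow_add hmR, ← Real.rpow_add hmR]
      have e2 : 4 * κ - 1 + ((A + (4 * κ - 1)) * (τ - 1) + α * τ) = -e := by
        have h4κ : 4 * κ * τ = e := by
          rw [hκ]
          field_simp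
        have h2e : 2 * e = τ - (τ - 1) * A - α * τ := by
          rw [he]
          ring
        nlinarith
      rw [e2, Real.rpow_neg hmR.le]
      have h5 : 1 / c₀ ≤ (m : ℝ) ^ e := h2
      have h6 : 0 < (m : ℝ) ^ e := by positivity
      rw [inv_le_comm₀ h6 hc₀]
      simpa using h5
    calc (m : ℝ) ^ (4 * κ - 1) ≤ n * (c₀ / ((n : ℝ) ^ τ * |(a:ℝ)| ^ τ)) := hexp
      _ ≤ n * |(n : ℝ) * (a * ξ) - k| := mul_le_mul_of_nonneg_left hlow hnR.le

/-- Liouville's inequality for a real algebraic number of degree `d ≥ 2` -/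
theorem liouville {ξ : ℝ} {d : ℕ} (hd : 2 ≤ d) (hξ : (minpoly ℚ ξ).natDegree = d) :
    ∃ c₀ : ℝ, 0 < c₀ ∧ ∀ (n : ℕ) (k : ℤ), 1 ≤ n →
      c₀ / (n : ℝ) ^ ((d : ℝ) - 1) ≤ |(n : ℝ) * ξ - k| := by
  have hirr : Irrational ξ := by
    rintro ⟨r, hr⟩
    have h1 : minpoly ℚ ξ = X - C r := by
      rw [← hr]
      exact minpoly.eq_X_sub_C ℝ r
    rw [h1, natDegree_X_sub_C] at hξ
    omega
  have hne : minpoly ℚ ξ ≠ 0 := by
    intro h0
    rw [h0, natDegree_zero] at hξ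
    omega
  obtain ⟨b, hbm, hb⟩ := IsLocalization.integerNormalization_spec (nonZeroDivisors ℤ)
    (minpoly ℚ ξ)
  set f : ℤ[X] := IsLocalization.integerNormalization (nonZeroDivisors ℤ) (minpoly ℚ ξ) with hf
  have hb0 : (b : ℤ) ≠ 0 := nonZeroDivisors.ne_zero hbm
  have hfQ : f.map (algebraMap ℤ ℚ) = C ((b : ℤ) : ℚ) * minpoly ℚ ξ := by
    rw [hb]
    ext i
    rw [coeff_C_mul, coeff_smul, zsmul_eq_mul]
  have hdeg : f.natDegree = d := by
    have h1 : (f.map (algebraMap ℤ ℚ)).natDegree = f.natDegree :=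
      natDegree_map_eq_of_injective (algebraMap ℤ ℚ).injective_int f
    rw [← h1, hfQ, natDegree_C_mul (by exact_mod_cast hb0), hξ]
  have hf0 : f ≠ 0 := by
    intro h0
    rw [h0, natDegree_zero] at hdeg
    omega
  have hroot : eval ξ (f.map (algebraMap ℤ ℝ)) = 0 := by
    have h1 : f.map (algebraMap ℤ ℝ) = (f.map (algebraMap ℤ ℚ)).map (algebraMap ℚ ℝ) := by
      rw [Polynomial.map_map]
      congr 1
    rw [h1, hfQ, Polynomial.map_mul, eval_mul]
    have h2 : eval ξ ((minpoly ℚ ξ).map (algebraMap ℚ ℝ)) = 0 := by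
      have := minpoly.aeval ℚ ξ
      rwa [aeval_def, eval₂_eq_eval_map] at this
    rw [h2, mul_zero]
  obtain ⟨A, hA, hL⟩ := Liouville.exists_pos_real_of_irrational_root hirr hf0 hroot
  refine ⟨1 / A, by positivity, ?_⟩
  intro n k hn
  have h := hL k (n - 1)
  have hn' : (((n - 1 : ℕ) : ℝ) + 1) = n := by
    rw [Nat.cast_sub hn]
    simp
  rw [hn', hdeg] at h
  have hnR : (0:ℝ) < n := by exact_mod_cast hn
  have e1 : (n : ℝ) ^ ((d : ℝ) - 1) = (n : ℝ) ^ d / n := by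
    rw [Real.rpow_sub_one hnR.ne', Real.rpow_natCast]
  rw [e1, div_div, div_le_iff₀ (by positivity)]
  have e2 : |(n : ℝ) * ξ - k| = n * |ξ - (k : ℝ) / n| := by
    have : (n : ℝ) * ξ - k = n * (ξ - (k : ℝ) / n) := by field_simp
    rw [this, abs_mul, abs_of_pos hnR]
  rw [e2]
  calc (1:ℝ) ≤ (n : ℝ) ^ d * (|ξ - (k : ℝ) / n| * A) := h
    _ = n * |ξ - (k : ℝ) / n| * (A * ((n : ℝ) ^ d / n)) := by
      field_simp

end Pool.Agent.Helper95.Div
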