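import Pool.Agent.Helper95.Div.Scale
import Pool.Agent.Helper92.Field.Divisor

/-!
# Lang's inequality for almost all division points
-/

set_option autoImplicit false

namespace Pool.Agent.Helper95.Div

open Finset Filter Topology

/-- `j < m` such that `(x + j) / m` violates the inequality with constant `c` for some `q ≤ X` -/
def Bad (ε c X x : ℝ) (m : ℕ) : Set ℕ :=
  {j | j < m ∧ ∃ (p : ℤ) (q : ℕ), 2 ≤ q ∧ (q : ℝ) ≤ X ∧
    |(x + j) / m - (p : ℝ) / (q : ℝ)| ≤ c / ((q : ℝ) ^ 2 * (Real.log (q : ℝ)) ^ (1 + ε))}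

/-- the constant coming from the dyadic decomposition -/
noncomputable def W (ε : ℝ) : ℝ := (2 / Real.log 2) ^ (1 + ε)

/-- the width at the scale `i` -/
noncomputable def bet (ε c : ℝ) (i : ℕ) : ℝ := c * W ε / (4 ^ i * ((i : ℝ) + 1) ^ (1 + ε))

lemma W_pos (ε : ℝ) : 0 < W ε := by
  unfold W
  have := Real.log_pos (show (1:ℝ) < 2 by norm_num)
  positivity

lemma bet_pos {ε c : ℝ} (hc : 0 < c) (i : ℕ) : 0 < bet ε c i := by
  unfold bet
  have := W_pos ε
  positivity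

lemma bad_subset {ε c X x : ℝ} {m : ℕ} (hε : 0 < ε) (hc : 0 < c) {j : ℕ}
    (hj : j ∈ Bad ε c X x m) :
    ∃ i : ℕ, (2:ℝ) ^ i ≤ X ∧ j ∈ Jset x m i (bet ε c i) := by
  obtain ⟨hjm, p, q, hq2, hqX, happ⟩ := hj
  have hq0 : 0 < q := by omega
  set g0 := Int.gcd p q with hg0
  have hg0pos : 0 < g0 := by
    rw [hg0]
    apply Int.gcd_pos_of_ne_zero_right
    exact_mod_cast hq0.ne'
  have hgq : g0 ∣ q := by
    have : ((g0 : ℕ) : ℤ) ∣ ((q : ℕ) : ℤ) := Int.gcd_dvd_right p q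
    exact_mod_cast this
  have hgp : ((g0 : ℕ) : ℤ) ∣ p := Int.gcd_dvd_left p q
  obtain ⟨q', hq'⟩ := hgq
  obtain ⟨p', hp'⟩ := hgp
  have hq'0 : 0 < q' := by
    rcases Nat.eq_zero_or_pos q' with h | h
    · rw [h, mul_zero] at hq'
      omega
    · exact h
  have hcop : Int.gcd p' q' = 1 := by
    have h1 : Int.gcd p q = g0 * Int.gcd p' q' := by
      rw [hp']
      nth_rewrite 1 [hq']
      push_cast
      rw [Int.gcd_mul_left, Int.natAbs_natCast]
    rw [← hg0] at h1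
    have h2 : g0 * 1 = g0 * Int.gcd p' q' := by rw [mul_one]; exact h1
    exact (Nat.eq_of_mul_eq_mul_left hg0pos h2).symm
  set i := Nat.log 2 q' with hi
  have hi1 : 2 ^ i ≤ q' := Nat.pow_log_le_self 2 hq'0.ne'
  have hi2 : q' < 2 ^ (i + 1) := Nat.lt_pow_succ_log_self (by norm_num) q'
  have hq'q : q' ≤ q := by
    rw [hq']
    exact Nat.le_mul_of_pos_left q' hg0pos
  have hq'R : (0:ℝ) < q' := by exact_mod_cast hq'0
  have hg0R : (0:ℝ) < g0 := by exact_mod_cast hg0pos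
  have hqR : (0:ℝ) < q := by exact_mod_cast hq0
  have h2q : (2:ℝ) ^ i ≤ q := by
    have : 2 ^ i ≤ q := hi1.trans hq'q
    exact_mod_cast this
  refine ⟨i, h2q.trans hqX, hjm, p', q', hcop, hi1, hi2, ?_⟩
  have hfrac : (p : ℝ) / q = (p' : ℝ) / q' := by
    rw [hp', hq']
    push_cast
    field_simp
  rw [← hfrac]
  refine happ.trans ?_
  unfold bet
  have hlog2 : 0 < Real.log 2 := Real.log_pos (by norm_num)
  have hlogq : ((i : ℝ) + 1) * (Real.log 2 / 2) ≤ Real.log q := by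
    rcases Nat.eq_zero_or_pos i with h0 | hpos
    · rw [h0]
      push_cast
      have : Real.log 2 ≤ Real.log q := Real.log_le_log (by norm_num) (by exact_mod_cast hq2)
      linarith
    · have h3 : (i : ℝ) * Real.log 2 ≤ Real.log q := by
        rw [← Real.log_pow]
        exact Real.log_le_log (by positivity) h2q
      have h4 : (1:ℝ) ≤ i := by exact_mod_cast hpos
      nlinarith
  have h5 : (((i : ℝ) + 1) * (Real.log 2 / 2)) ^ (1 + ε) ≤ (Real.log q) ^ (1 + ε) :=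
    Real.rpow_le_rpow (by positivity) hlogq (by linarith)
  rw [Real.mul_rpow (by positivity) (by positivity)] at h5
  have hWinv : (Real.log 2 / 2) ^ (1 + ε) = (W ε)⁻¹ := by
    unfold W
    rw [← Real.inv_rpow (by positivity)]
    congr 1
    field_simp
  rw [hWinv] at h5
  have hW := W_pos ε
  have h6 : (4:ℝ) ^ i ≤ (q : ℝ) ^ 2 := by
    have : (4:ℝ) ^ i = (2 ^ i) ^ 2 := by
      rw [← pow_mul, mul_comm, pow_mul]
      norm_num
    rw [this]
    exact pow_le_pow_left₀ (by positivity) h2q 2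
  have h7 : (4:ℝ) ^ i * (((i : ℝ) + 1) ^ (1 + ε) * (W ε)⁻¹)
      ≤ (q : ℝ) ^ 2 * (Real.log q) ^ (1 + ε) :=
    mul_le_mul h6 h5 (by positivity) (by positivity)
  have h8 : c * W ε / (4 ^ i * ((i : ℝ) + 1) ^ (1 + ε))
      = c / (4 ^ i * (((i : ℝ) + 1) ^ (1 + ε) * (W ε)⁻¹)) := by
    field_simp
  rw [h8]
  exact div_le_div_of_nonneg_left hc.le (by positivity) h7

/-- `∑ (i+1)^{-(1+ε)}` -/
noncomputable def Z (ε : ℝ) : ℝ := ∑' i : ℕ, 1 / ((i : ℝ) + 1) ^ (1 + ε)

lemma summable_Z {ε : ℝ} (hε : 0 < ε) : Summable (fun i : ℕ => 1 / ((i : ℝ) + 1) ^ (1 + ε)) := by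
  have h := Real.summable_one_div_nat_rpow.2 (show 1 < 1 + ε by linarith)
  have h2 := (summable_nat_add_iff 1).2 h
  simpa using h2

lemma sum_le_Z {ε : ℝ} (hε : 0 < ε) (s : Finset ℕ) :
    ∑ i ∈ s, 1 / ((i : ℝ) + 1) ^ (1 + ε) ≤ Z ε :=
  (summable_Z hε).sum_le_tsum s (fun i _ => by positivity)

lemma Z_nonneg (ε : ℝ) : 0 ≤ Z ε := tsum_nonneg (fun i => by positivity)

lemma total_card {ε c X x G : ℝ} {m I : ℕ} (hε : 0 < ε) (hc : 0 < c) (hm : 0 < m) (hG0 : 0 ≤ G)
    (hI : ∀ i : ℕ, (2:ℝ) ^ i ≤ X → i ≤ I)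
    (hG : ∀ i : ℕ, (2:ℝ) ^ i ≤ X → ∀ g ∈ m.divisors, G < g → Tset x m i g (bet ε c i) = ∅) :
    ((Bad ε c X x m).ncard : ℝ) ≤ ((I : ℝ) + 1) * ((m.divisors.card : ℝ) * G)
      + 8 * c * W ε * Z ε * (ArithmeticFunction.sigma 1 m : ℕ) := by
  classical
  set s := (Finset.range (I + 1)).filter (fun i => (2:ℝ) ^ i ≤ X) with hs
  have hJfin : ∀ i, (Jset x m i (bet ε c i)).Finite := fun i =>
    (Finset.range m).finite_toSet.subset (fun j hj => by
      rw [Finset.coe_range]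
      exact hj.1)
  have hsub : Bad ε c X x m ⊆ ((s.biUnion (fun i => (hJfin i).toFinset) : Finset ℕ) : Set ℕ) := by
    intro j hj
    obtain ⟨i, hi1, hi2⟩ := bad_subset hε hc hj
    rw [Finset.mem_coe, Finset.mem_biUnion]
    refine ⟨i, ?_, (hJfin i).mem_toFinset.2 hi2⟩
    rw [hs, Finset.mem_filter, Finset.mem_range]
    exact ⟨Nat.lt_succ_of_le (hI i hi1), hi1⟩
  have h1 : (Bad ε c X x m).ncard ≤ ∑ i ∈ s, (Jset x m i (bet ε c i)).ncard := by
    calc (Bad ε c X x m).ncard ≤ (((s.biUnion (fun i => (hJfin i).toFinset) : Finset ℕ)) : Set ℕ).ncard :=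
          Set.ncard_le_ncard hsub (Finset.finite_toSet _)
      _ = (s.biUnion (fun i => (hJfin i).toFinset)).card := Set.ncard_coe_finset _
      _ ≤ ∑ i ∈ s, ((hJfin i).toFinset).card := Finset.card_biUnion_le
      _ = ∑ i ∈ s, (Jset x m i (bet ε c i)).ncard := by
          apply Finset.sum_congr rfl
          intro i _
          rw [Set.ncard_eq_toFinset_card _ (hJfin i)]
  have h2 : ((Bad ε c X x m).ncard : ℝ) ≤ ∑ i ∈ s, ((Jset x m i (bet ε c i)).ncard : ℝ) := by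
    exact_mod_cast h1
  have h3 : ∀ i ∈ s, ((Jset x m i (bet ε c i)).ncard : ℝ) ≤ (m.divisors.card : ℝ) * G
      + (8 * c * W ε * (ArithmeticFunction.sigma 1 m : ℕ)) * (1 / ((i : ℝ) + 1) ^ (1 + ε)) := by
    intro i hi
    have hiX := (Finset.mem_filter.1 hi).2
    have h := Jset_card (x := x) (i := i) (β := bet ε c i) (G := G) hm (bet_pos hc i).le (hG i hiX)
    rw [max_eq_left hG0] at h
    refine h.trans (le_of_eq ?_)
    unfold bet
    have : (4:ℝ) ^ i ≠ 0 := by positivity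
    have : ((i : ℝ) + 1) ^ (1 + ε) ≠ 0 := by positivity
    field_simp
  have hcard : (s.card : ℝ) ≤ (I : ℝ) + 1 := by
    have : s.card ≤ I + 1 := by
      calc s.card ≤ (Finset.range (I + 1)).card := Finset.card_filter_le _ _
        _ = I + 1 := Finset.card_range _
    exact_mod_cast this
  calc ((Bad ε c X x m).ncard : ℝ) ≤ ∑ i ∈ s, ((Jset x m i (bet ε c i)).ncard : ℝ) := h2
    _ ≤ ∑ i ∈ s, ((m.divisors.card : ℝ) * G
      + (8 * c * W ε * (ArithmeticFunction.sigma 1 m : ℕ)) * (1 / ((i : ℝ) + 1) ^ (1 + ε))) :=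
        Finset.sum_le_sum h3
    _ = (s.card : ℝ) * ((m.divisors.card : ℝ) * G)
      + (8 * c * W ε * (ArithmeticFunction.sigma 1 m : ℕ)) *
        ∑ i ∈ s, (1 / ((i : ℝ) + 1) ^ (1 + ε)) := by
        rw [Finset.sum_add_distrib, Finset.sum_const, nsmul_eq_mul, ← Finset.mul_sum]
    _ ≤ ((I : ℝ) + 1) * ((m.divisors.card : ℝ) * G)
      + (8 * c * W ε * (ArithmeticFunction.sigma 1 m : ℕ)) * Z ε := by
        have hW := W_pos ε
        have := sum_le_Z hε s
        gcongr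
    _ = _ := by ring

lemma le_sigma {m : ℕ} (hm : 0 < m) : (m : ℝ) ≤ (ArithmeticFunction.sigma 1 m : ℕ) := by
  rw [ArithmeticFunction.sigma_one_apply]
  have : m ≤ ∑ d ∈ m.divisors, d :=
    Finset.single_le_sum (f := fun d : ℕ => d) (fun _ _ => Nat.zero_le _)
      (Nat.mem_divisors_self m hm.ne')
  exact_mod_cast this

lemma eventually_rpow_ge {e : ℝ} (he : 0 < e) (B : ℝ) :
    ∀ᶠ m : ℕ in atTop, B ≤ (m : ℝ) ^ e :=
  ((tendsto_rpow_atTop he).comp tendsto_natCast_atTop_atTop).eventually_ge_atTop B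

/-- The general statement: every real number `x` without extremely good approximations. -/
theorem general {ε : ℝ} (hε : 0 < ε) {c κ : ℝ} (hc : 0 < c) (hκ : 0 < κ) :
    ∀ᶠ m : ℕ in atTop, ∀ x X : ℝ, Real.log X ≤ (m : ℝ) ^ κ →
      (∀ (n : ℕ) (k : ℤ), 1 ≤ n → (n : ℝ) ≤ (m : ℝ) ^ (4 * κ - 1) * X →
        (m : ℝ) ^ (4 * κ - 1) ≤ n * |(n : ℝ) * x - k|) →
      ((Bad ε c X x m).ncard : ℝ) ≤ (8 * W ε * Z ε + 1) * c * (ArithmeticFunction.sigma 1 m : ℕ) := by
  obtain ⟨C₁, hC₁, hdiv⟩ := Pool.Agent.Helper92.Field.divisor_bound (ε := κ / 4) (by positivity)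
  filter_upwards [eventually_rpow_ge (show 0 < κ / 4 by positivity) (4 * C₁ / c),
    eventually_rpow_ge (show 0 < 5 * κ / 2 by positivity) 2,
    eventually_rpow_ge hκ (4 * c * W ε), eventually_rpow_ge hκ 1, eventually_ge_atTop 1]
    with m e1 e2 e3 e4 e5 x X hX hx
  have hm : 0 < m := e5
  have hmR : (0:ℝ) < m := by exact_mod_cast hm
  have hm1 : (1:ℝ) ≤ m := by exact_mod_cast e5
  rcases lt_or_ge X 1 with hX1 | hX1
  · -- no `q`
    have hempty : Bad ε c X x m = ∅ := by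
      rw [Set.eq_empty_iff_forall_notMem]
      rintro j ⟨_, p, q, hq, hqX, _⟩
      have : (2:ℝ) ≤ q := by exact_mod_cast hq
      linarith
    rw [hempty, Set.ncard_empty, Nat.cast_zero]
    have := W_pos ε
    have := Z_nonneg ε
    positivity
  have hXpos : 0 < X := by linarith
  set G : ℝ := (m : ℝ) ^ (1 - 3 * κ / 2) with hG
  have hGpos : 0 < G := by positivity
  have hlog2 : 0 < Real.log 2 := Real.log_pos (by norm_num)
  have hlog2' : (1:ℝ) / 2 < Real.log 2 := by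
    have := Real.log_two_gt_d9
    linarith
  set I : ℕ := ⌊Real.log X / Real.log 2⌋₊ with hI
  have hIle : ∀ i : ℕ, (2:ℝ) ^ i ≤ X → i ≤ I := by
    intro i hi
    rw [hI]
    apply Nat.le_floor
    rw [le_div_iff₀ hlog2, ← Real.log_pow]
    exact Real.log_le_log (by positivity) hi
  have hIbound : (I : ℝ) + 1 ≤ 4 * (m : ℝ) ^ κ := by
    have h1 : (I : ℝ) ≤ Real.log X / Real.log 2 := Nat.floor_le (by
      apply div_nonneg (Real.log_nonneg hX1) hlog2.le)
    have h2 : Real.log X / Real.log 2 ≤ 2 * (m : ℝ) ^ κ := by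
      rw [div_le_iff₀ hlog2]
      have h0 : 0 ≤ (m : ℝ) ^ κ := by positivity
      nlinarith
    linarith
  have hempty : ∀ i : ℕ, (2:ℝ) ^ i ≤ X → ∀ g ∈ m.divisors, G < g →
      Tset x m i g (bet ε c i) = ∅ := by
    intro i hi g hg hGg
    rw [Set.eq_empty_iff_forall_notMem]
    rintro ⟨k, n⟩ ⟨hn, -, -, hlt, happ⟩
    simp only at hn hlt happ
    have hgpos : 0 < g := Nat.pos_of_mem_divisors hg
    have hgR : (0:ℝ) < g := by exact_mod_cast hgpos
    have hnR : (0:ℝ) < n := by exact_mod_cast hn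
    have hgn : (g : ℝ) * n < 2 * 2 ^ i := by
      have : ((g * n : ℕ) : ℝ) < ((2 ^ (i + 1) : ℕ) : ℝ) := by exact_mod_cast hlt
      push_cast at this
      rw [pow_succ] at this
      linarith
    have hnX : (n : ℝ) ≤ (m : ℝ) ^ (4 * κ - 1) * X := by
      have h1 : G * n < 2 * X := by
        calc G * n ≤ g * n := mul_le_mul_of_nonneg_right hGg.le hnR.le
          _ < 2 * 2 ^ i := hgn
          _ ≤ 2 * X := by linarith
      have h2 : G * ((m : ℝ) ^ (4 * κ - 1) * X) = (m : ℝ) ^ (5 * κ / 2) * X := by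
        rw [hG, ← mul_assoc, ← Real.rpow_add hmR]
        congr 2
        ring
      have h3 : G * n ≤ G * ((m : ℝ) ^ (4 * κ - 1) * X) := by
        rw [h2]
        have : 2 * X ≤ (m : ℝ) ^ (5 * κ / 2) * X := mul_le_mul_of_nonneg_right e2 hXpos.le
        linarith
      exact le_of_mul_le_mul_left h3 hGpos
    have hq := hx n k hn hnX
    -- upper bound
    have hb := bet_pos (ε := ε) hc i
    have hup : (n : ℝ) * |(n : ℝ) * x - k| ≤ (n : ℝ) ^ 2 * (bet ε c i * m) := by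
      have e : (n : ℝ) * x - k = n * (x - (k : ℝ) / n) := by
        field_simp
      rw [e, abs_mul, abs_of_pos hnR]
      have : (n : ℝ) * (n * |x - (k : ℝ) / n|) = (n : ℝ) ^ 2 * |x - (k : ℝ) / n| := by ring
      rw [this]
      exact mul_le_mul_of_nonneg_left happ (by positivity)
    have hbet : bet ε c i ≤ c * W ε / 4 ^ i := by
      unfold bet
      have hW := W_pos ε
      apply div_le_div_of_nonneg_left (by positivity) (by positivity)
      have h1 : (1:ℝ) ≤ ((i : ℝ) + 1) ^ (1 + ε) :=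
        Real.one_le_rpow (by have : (0:ℝ) ≤ i := Nat.cast_nonneg i; linarith) (by linarith)
      nlinarith [show (0:ℝ) < 4 ^ i by positivity]
    have hn2 : (n : ℝ) ^ 2 * (g : ℝ) ^ 2 < 4 * 4 ^ i := by
      have h1 : ((g : ℝ) * n) ^ 2 < (2 * 2 ^ i) ^ 2 := by
        apply pow_lt_pow_left₀ hgn (by positivity) (by norm_num)
      have h2 : ((2:ℝ) * 2 ^ i) ^ 2 = 4 * 4 ^ i := by
        have : (4:ℝ) ^ i = 2 ^ i * 2 ^ i := by
          rw [← mul_pow]
          norm_num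
        rw [this]
        ring
      rw [h2] at h1
      nlinarith
    have hG2 : G ^ 2 * (m : ℝ) ^ (3 * κ - 1) = m := by
      rw [hG, ← Real.rpow_natCast, ← Real.rpow_mul hmR.le, ← Real.rpow_add hmR]
      have : (1 - 3 * κ / 2) * ((2:ℕ) : ℝ) + (3 * κ - 1) = 1 := by
        push_cast
        ring
      rw [this, Real.rpow_one]
    have hg2 : G ^ 2 < (g : ℝ) ^ 2 := pow_lt_pow_left₀ hGg hGpos.le (by norm_num)
    have hW := W_pos ε
    have hlt : (n : ℝ) ^ 2 * (bet ε c i * m) < 4 * c * W ε * (m : ℝ) ^ (3 * κ - 1) := by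
      have h4 : (0:ℝ) < 4 ^ i := by positivity
      have h5 : (n : ℝ) ^ 2 * (bet ε c i * m) ≤ (n : ℝ) ^ 2 * (c * W ε / 4 ^ i * m) := by
        gcongr
      have h6 : (n : ℝ) ^ 2 * (c * W ε / 4 ^ i * m) * (g : ℝ) ^ 2
          < 4 * c * W ε * (m : ℝ) ^ (3 * κ - 1) * (g : ℝ) ^ 2 := by
        have e : (n : ℝ) ^ 2 * (c * W ε / 4 ^ i * m) * (g : ℝ) ^ 2
            = ((n : ℝ) ^ 2 * (g : ℝ) ^ 2) * (c * W ε * m) / 4 ^ i := by
          field_simp
        rw [e, div_lt_iff₀ h4]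
        have h7 : ((n : ℝ) ^ 2 * (g : ℝ) ^ 2) * (c * W ε * m) < (4 * 4 ^ i) * (c * W ε * m) :=
          mul_lt_mul_of_pos_right hn2 (by positivity)
        have h8 : (m : ℝ) ≤ (m : ℝ) ^ (3 * κ - 1) * (g : ℝ) ^ 2 := by
          nth_rewrite 1 [← hG2]
          rw [mul_comm]
          exact mul_le_mul_of_nonneg_left hg2.le (by positivity)
        have h9 : (4 * 4 ^ i) * (c * W ε * m)
            ≤ (4 * 4 ^ i) * (c * W ε * ((m : ℝ) ^ (3 * κ - 1) * (g : ℝ) ^ 2)) := by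
          gcongr
        calc _ < _ := h7
          _ ≤ _ := h9
          _ = _ := by ring
      have h10 := lt_of_mul_lt_mul_right h6 (by positivity)
      exact lt_of_le_of_lt h5 h10
    have hfin : 4 * c * W ε * (m : ℝ) ^ (3 * κ - 1) ≤ (m : ℝ) ^ (4 * κ - 1) := by
      have e : (m : ℝ) ^ (4 * κ - 1) = (m : ℝ) ^ κ * (m : ℝ) ^ (3 * κ - 1) := by
        rw [← Real.rpow_add hmR]
        congr 1
        ring
      rw [e]
      exact mul_le_mul_of_nonneg_right e3 (by positivity)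
    linarith
  have htot := total_card (ε := ε) (c := c) (X := X) (x := x) (G := G) (m := m) (I := I) hε hc hm
    hGpos.le hIle hempty
  have herr : ((I : ℝ) + 1) * ((m.divisors.card : ℝ) * G) ≤ c * m := by
    have h1 := hdiv m hm.ne'
    calc ((I : ℝ) + 1) * ((m.divisors.card : ℝ) * G)
        ≤ (4 * (m : ℝ) ^ κ) * ((C₁ * (m : ℝ) ^ (κ / 4)) * G) := by
          gcongr
      _ = 4 * C₁ * ((m : ℝ) ^ κ * (m : ℝ) ^ (κ / 4) * (m : ℝ) ^ (1 - 3 * κ / 2)) := by
          rw [hG]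
          ring
      _ = 4 * C₁ * (m : ℝ) ^ (1 - κ / 4) := by
          rw [← Real.rpow_add hmR, ← Real.rpow_add hmR]
          congr 2
          ring
      _ ≤ c * m := by
          have e : (m : ℝ) = (m : ℝ) ^ (κ / 4) * (m : ℝ) ^ (1 - κ / 4) := by
            rw [← Real.rpow_add hmR]
            have : κ / 4 + (1 - κ / 4) = 1 := by ring
            rw [this, Real.rpow_one]
          have h2 : 4 * C₁ ≤ c * (m : ℝ) ^ (κ / 4) := by
            rw [div_le_iff₀ hc] at e1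
            linarith
          calc 4 * C₁ * (m : ℝ) ^ (1 - κ / 4)
              ≤ (c * (m : ℝ) ^ (κ / 4)) * (m : ℝ) ^ (1 - κ / 4) :=
                mul_le_mul_of_nonneg_right h2 (by positivity)
            _ = c * ((m : ℝ) ^ (κ / 4) * (m : ℝ) ^ (1 - κ / 4)) := by ring
            _ = c * m := by rw [← e]
  have hsig := le_sigma hm
  have : c * (m : ℝ) ≤ c * (ArithmeticFunction.sigma 1 m : ℕ) :=
    mul_le_mul_of_nonneg_left hsig hc.le
  calc ((Bad ε c X x m).ncard : ℝ) ≤ _ := htot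
    _ ≤ c * (ArithmeticFunction.sigma 1 m : ℕ)
      + 8 * c * W ε * Z ε * (ArithmeticFunction.sigma 1 m : ℕ) := by linarith
    _ = _ := by ring

end Pool.Agent.Helper95.Div
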