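import Pool.Agent.Helper95.Div.Basic

/-!
# Counting division points with a good rational approximation at one scale
-/

set_option autoImplicit false

namespace Pool.Agent.Helper95.Div

open Finset

/-- `j < m` such that `(x + j) / m` has a reduced approximation `p/q`, `2^i ≤ q < 2^(i+1)` -/
def Jset (x : ℝ) (m i : ℕ) (β : ℝ) : Set ℕ :=
  {j | j < m ∧ ∃ (p : ℤ) (q : ℕ), Int.gcd p q = 1 ∧ 2 ^ i ≤ q ∧ q < 2 ^ (i + 1) ∧
    |(x + j) / m - (p : ℝ) / (q : ℝ)| ≤ β}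

/-- reduced approximations of `x` with denominators in `[2^i / g, 2^(i+1) / g)` -/
def Tset (x : ℝ) (m i g : ℕ) (β : ℝ) : Set (ℤ × ℕ) :=
  {t | 1 ≤ t.2 ∧ Int.gcd t.1 t.2 = 1 ∧ 2 ^ i ≤ g * t.2 ∧ g * t.2 < 2 ^ (i + 1) ∧
    |x - (t.1 : ℝ) / (t.2 : ℝ)| ≤ β * m}

lemma finset_card_Tset {x : ℝ} {m i g : ℕ} {β : ℝ} (hg : 1 ≤ g) (hβ : 0 ≤ β)
    (T : Finset (ℤ × ℕ)) (hT : (T : Set (ℤ × ℕ)) ⊆ Tset x m i g β) :
    (T.card : ℝ) ≤ 1 + 8 * β * m * 4 ^ i / (g : ℝ) ^ 2 := by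
  have hg' : (0:ℝ) < g := by exact_mod_cast hg
  have h := farey_card x (β * m) (2 ^ (i + 1) / g) (by positivity) (by positivity) T (by
    intro t ht
    obtain ⟨h1, h2, h3, h4, h5⟩ := hT ht
    refine ⟨h1, ?_, h2, h5⟩
    rw [lt_div_iff₀ hg']
    have : ((g * t.2 : ℕ) : ℝ) < ((2 ^ (i + 1) : ℕ) : ℝ) := by exact_mod_cast h4
    push_cast at this
    linarith)
  refine h.trans (le_of_eq ?_)
  have e : (2:ℝ) ^ (i + 1) * 2 ^ (i + 1) = 4 * 4 ^ i := by
    have : (4:ℝ) ^ i = 2 ^ i * 2 ^ i := by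
      rw [← mul_pow]
      norm_num
    rw [this, pow_succ]
    ring
  have e2 : ((2:ℝ) ^ (i + 1) / g) ^ 2 = 4 * 4 ^ i / (g : ℝ) ^ 2 := by
    rw [div_pow, sq ((2:ℝ) ^ (i + 1)), e]
  rw [e2]
  ring

lemma Tset_finite {x : ℝ} {m i g : ℕ} {β : ℝ} (hg : 1 ≤ g) (hβ : 0 ≤ β) :
    (Tset x m i g β).Finite := by
  by_contra hinf
  obtain ⟨n, hn⟩ := exists_nat_gt (1 + 8 * β * m * 4 ^ i / (g : ℝ) ^ 2)
  obtain ⟨T, hT, hc⟩ := Set.Infinite.exists_subset_card_eq hinf n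
  have := finset_card_Tset hg hβ T hT
  rw [hc] at this
  linarith

lemma key_aux (x : ℝ) (j g n m' : ℕ) (p : ℤ) (hg : 0 < g) (hn : 0 < n) (hm' : 0 < m') :
    x - (((m' : ℤ) * p - (j : ℤ) * (n : ℤ) : ℤ) : ℝ) / (n : ℝ)
      = ((x + j) / ((g * m' : ℕ) : ℝ) - (p : ℝ) / ((g * n : ℕ) : ℝ)) * ((g * m' : ℕ) : ℝ) := by
  have h1 : (0:ℝ) < g := by exact_mod_cast hg
  have h2 : (0:ℝ) < n := by exact_mod_cast hn
  have h3 : (0:ℝ) < m' := by exact_mod_cast hm'
  push_cast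
  field_simp
  ring

/-- one division point and its good approximation give a good approximation of `x` -/
lemma descend {x : ℝ} {m i : ℕ} {β : ℝ} (hm : 0 < m) {j : ℕ} (hj : j ∈ Jset x m i β) :
    ∃ g ∈ m.divisors, ∃ t ∈ Tset x m i g β,
      Nat.Coprime t.2 (m / g) ∧ ((m / g : ℕ) : ℤ) ∣ (j : ℤ) * t.2 + t.1 := by
  obtain ⟨hjm, p, q, hpq, hq1, hq2, happ⟩ := hj
  have hq0 : 0 < q := lt_of_lt_of_le (by positivity) hq1
  set g := Nat.gcd q m with hg
  have hg0 : 0 < g := Nat.gcd_pos_of_pos_left _ hq0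
  have hgm : g ∣ m := Nat.gcd_dvd_right q m
  have hgq : g ∣ q := Nat.gcd_dvd_left q m
  have hcop : Nat.Coprime (q / g) (m / g) := Nat.coprime_div_gcd_div_gcd hg0
  have hqg : g * (q / g) = q := Nat.mul_div_cancel' hgq
  have hmg : g * (m / g) = m := Nat.mul_div_cancel' hgm
  have hn0 : 0 < q / g := Nat.div_pos (Nat.le_of_dvd hq0 hgq) hg0
  refine ⟨g, Nat.mem_divisors.2 ⟨hgm, hm.ne'⟩,
    (((m / g : ℕ) : ℤ) * p - (j : ℤ) * ((q / g : ℕ) : ℤ), q / g), ⟨hn0, ?_, ?_, ?_, ?_⟩, hcop, ?_⟩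
  · rw [← Int.isCoprime_iff_gcd_eq_one]
    have c1 : IsCoprime p (q : ℤ) := Int.isCoprime_iff_gcd_eq_one.2 hpq
    have c2 : IsCoprime p ((q / g : ℕ) : ℤ) :=
      c1.of_isCoprime_of_dvd_right (Int.natCast_dvd_natCast.2 (Nat.div_dvd_of_dvd hgq))
    have c3 : IsCoprime ((m / g : ℕ) : ℤ) ((q / g : ℕ) : ℤ) := Nat.isCoprime_iff_coprime.2 hcop.symm
    have c4 : IsCoprime (((m / g : ℕ) : ℤ) * p) ((q / g : ℕ) : ℤ) := c3.mul_left c2
    have := IsCoprime.add_mul_left_left c4 (-(j : ℤ))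
    have e : ((m / g : ℕ) : ℤ) * p + ((q / g : ℕ) : ℤ) * (-(j : ℤ))
        = ((m / g : ℕ) : ℤ) * p - (j : ℤ) * ((q / g : ℕ) : ℤ) := by ring
    rw [e] at this
    exact this
  · simp only
    rw [hqg]
    exact hq1
  · simp only
    rw [hqg]
    exact hq2
  · simp only
    have hm' : (0:ℝ) < m := by exact_mod_cast hm
    have hm0 : 0 < m / g := Nat.div_pos (Nat.le_of_dvd hm hgm) hg0
    have key := key_aux x j g (q / g) (m / g) p hg0 hn0 hm0
    rw [hqg, hmg] at key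
    rw [key, abs_mul, abs_of_pos hm']
    exact mul_le_mul_of_nonneg_right happ hm'.le
  · simp only
    have : (j : ℤ) * ((q / g : ℕ) : ℤ) + (((m / g : ℕ) : ℤ) * p - (j : ℤ) * ((q / g : ℕ) : ℤ))
        = ((m / g : ℕ) : ℤ) * p := by ring
    rw [this]
    exact dvd_mul_right _ _

/-- the count at one scale -/
lemma Jset_card {x : ℝ} {m i : ℕ} {β G : ℝ} (hm : 0 < m) (hβ : 0 ≤ β)
    (hG : ∀ g ∈ m.divisors, G < g → Tset x m i g β = ∅) :
    ((Jset x m i β).ncard : ℝ) ≤ (m.divisors.card : ℝ) * max G 0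
      + 8 * β * 4 ^ i * (ArithmeticFunction.sigma 1 m : ℕ) := by
  classical
  have hJfin : (Jset x m i β).Finite :=
    (Finset.range m).finite_toSet.subset (fun j hj => by
      rw [Finset.coe_range]
      exact hj.1)
  have hdiv : ∀ g ∈ m.divisors, 1 ≤ g := fun g hg => Nat.pos_of_mem_divisors hg
  let T : ℕ → Finset (ℤ × ℕ) := fun g =>
    if h : 1 ≤ g then (Tset_finite (x := x) (m := m) (i := i) (g := g) (β := β) h hβ).toFinset
    else ∅
  have hTmem : ∀ g, 1 ≤ g → ∀ t, t ∈ T g ↔ t ∈ Tset x m i g β := by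
    intro g hg t
    simp only [T, dif_pos hg, Set.Finite.mem_toFinset]
  let S : ℕ → (ℤ × ℕ) → Finset ℕ := fun g t =>
    (Finset.range m).filter (fun j => Nat.Coprime t.2 (m / g) ∧
      ((m / g : ℕ) : ℤ) ∣ (j : ℤ) * t.2 + t.1)
  have hsub : hJfin.toFinset ⊆ m.divisors.biUnion (fun g => (T g).biUnion (fun t => S g t)) := by
    intro j hj
    rw [Set.Finite.mem_toFinset] at hj
    obtain ⟨g, hg, t, ht, hc, hd⟩ := descend hm hj
    rw [Finset.mem_biUnion]
    refine ⟨g, hg, ?_⟩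
    rw [Finset.mem_biUnion]
    refine ⟨t, (hTmem g (hdiv g hg) t).2 ht, ?_⟩
    rw [Finset.mem_filter, Finset.mem_range]
    exact ⟨hj.1, hc, hd⟩
  have hS : ∀ g ∈ m.divisors, ∀ t ∈ T g, (S g t).card ≤ g := by
    intro g hg t _
    rcases Finset.eq_empty_or_nonempty (S g t) with h | ⟨j0, hj0⟩
    · rw [h]
      simp
    · have hc := (Finset.mem_filter.1 hj0).2.1
      have hgm := Nat.dvd_of_mem_divisors hg
      exact residue_card m g (m / g) t.2 t.1 (Nat.mul_div_cancel' hgm).symm hm hc (S g t)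
        (fun j hj => ⟨Finset.mem_range.1 (Finset.mem_filter.1 hj).1, (Finset.mem_filter.1 hj).2.2⟩)
  have hcard1 : (Jset x m i β).ncard ≤ ∑ g ∈ m.divisors, (T g).card * g := by
    rw [Set.ncard_eq_toFinset_card _ hJfin]
    calc hJfin.toFinset.card
        ≤ (m.divisors.biUnion (fun g => (T g).biUnion (fun t => S g t))).card :=
          Finset.card_le_card hsub
      _ ≤ ∑ g ∈ m.divisors, ((T g).biUnion (fun t => S g t)).card := Finset.card_biUnion_le
      _ ≤ ∑ g ∈ m.divisors, ∑ t ∈ T g, (S g t).card :=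
          Finset.sum_le_sum (fun g _ => Finset.card_biUnion_le)
      _ ≤ ∑ g ∈ m.divisors, ∑ t ∈ T g, g :=
          Finset.sum_le_sum (fun g hg => Finset.sum_le_sum (fun t ht => hS g hg t ht))
      _ = ∑ g ∈ m.divisors, (T g).card * g := by
          apply Finset.sum_congr rfl
          intro g _
          rw [Finset.sum_const, smul_eq_mul]
  have hcard2 : ((Jset x m i β).ncard : ℝ) ≤ ∑ g ∈ m.divisors, ((T g).card : ℝ) * g := by
    exact_mod_cast hcard1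
  have hterm : ∀ g ∈ m.divisors, ((T g).card : ℝ) * g
      ≤ max G 0 + 8 * β * 4 ^ i * ((m / g : ℕ) : ℝ) := by
    intro g hg
    have h1 := hdiv g hg
    have hg' : (0:ℝ) < g := by exact_mod_cast h1
    have hgm := Nat.dvd_of_mem_divisors hg
    have em : ((m / g : ℕ) : ℝ) = (m : ℝ) / g := by
      rw [Nat.cast_div hgm hg'.ne']
    rcases le_or_gt (g : ℝ) G with hle | hgt
    · have hT := finset_card_Tset (x := x) (m := m) (i := i) h1 hβ (T g) (fun t ht =>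
        (hTmem g h1 t).1 ht)
      have : ((T g).card : ℝ) * g ≤ (1 + 8 * β * m * 4 ^ i / (g : ℝ) ^ 2) * g :=
        mul_le_mul_of_nonneg_right hT hg'.le
      refine this.trans ?_
      have e : (1 + 8 * β * m * 4 ^ i / (g : ℝ) ^ 2) * g = g + 8 * β * 4 ^ i * ((m : ℝ) / g) := by
        field_simp
      rw [e, em]
      have : (g : ℝ) ≤ max G 0 := hle.trans (le_max_left _ _)
      linarith
    · have h2 := hG g hg hgt
      have : T g = ∅ := by
        rw [Finset.eq_empty_iff_forall_notMem]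
        intro t ht
        have := (hTmem g h1 t).1 ht
        rw [h2] at this
        exact this
      rw [this, Finset.card_empty]
      push_cast
      rw [zero_mul]
      have : 0 ≤ max G 0 := le_max_right _ _
      positivity
  refine hcard2.trans ((Finset.sum_le_sum hterm).trans (le_of_eq ?_))
  rw [Finset.sum_add_distrib, Finset.sum_const, nsmul_eq_mul, ← Finset.mul_sum]
  congr 2
  rw [ArithmeticFunction.sigma_one_apply, ← Nat.sum_div_divisors m (fun d => d)]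
  push_cast
  rfl

end Pool.Agent.Helper95.Div
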